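import Pool.Agent.Q241.PI.Fld

set_option autoImplicit false

/-!
# Products of powers of two prime powers in short intervals
-/

namespace Pool.Agent.Q241.PI

theorem dens_aux (x y ε : ℝ) (hx : 0 < x) (_hy : 0 < y) (i j : ℕ)
    (hd : 0 < i * y - j * x) (he : i * y - j * x ≤ ε) :
    ∃ T0 : ℝ, ∀ T ≥ T0, ∃ a b : ℕ, 1 ≤ a ∧ 1 ≤ b ∧ T ≤ a * x + b * y ∧ a * x + b * y ≤ T + ε := by
  set d := i * y - j * x with hdd
  obtain ⟨J, hJ⟩ := exists_nat_ge (x / d)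
  have hJ' : x ≤ J * d := by rwa [div_le_iff₀ hd] at hJ
  refine ⟨(J * j + 2) * x + y, fun T hT => ?_⟩
  have h0 : 0 ≤ (T - y) / x := by
    apply div_nonneg _ hx.le
    have : 0 ≤ ((J : ℝ) * j + 2) * x := by positivity
    linarith
  set N := ⌊(T - y) / x⌋₊ with hN
  have hN1 : (N : ℝ) ≤ (T - y) / x := Nat.floor_le h0
  have hN2 : (T - y) / x < N + 1 := Nat.lt_floor_add_one _
  have hN1' : N * x ≤ T - y := by rwa [le_div_iff₀ hx] at hN1
  have hN2' : T - y < (N + 1) * x := by rwa [div_lt_iff₀ hx] at hN2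
  have hNJ : J * j + 2 ≤ N := by
    apply Nat.le_floor
    rw [le_div_iff₀ hx]
    push_cast
    linarith
  set s := ⌈(T - y - N * x) / d⌉₊ with hs
  have hs1 : (T - y - N * x) / d ≤ s := Nat.le_ceil _
  have hs0 : 0 ≤ (T - y - N * x) / d := div_nonneg (by linarith) hd.le
  have hs2 : (s : ℝ) < (T - y - N * x) / d + 1 := Nat.ceil_lt_add_one hs0
  have hs1' : T - y - N * x ≤ s * d := by rwa [div_le_iff₀ hd] at hs1
  have hs2' : s * d < T - y - N * x + d := by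
    have := mul_lt_mul_of_pos_right hs2 hd
    rwa [add_mul, div_mul_cancel₀ _ hd.ne', one_mul] at this
  have hsJ : s ≤ J := by
    apply Nat.ceil_le.2
    rw [div_le_iff₀ hd]
    linarith
  have hsj : s * j ≤ J * j := Nat.mul_le_mul_right _ hsJ
  refine ⟨N - s * j, 1 + s * i, by omega, by omega, ?_, ?_⟩
  · rw [Nat.cast_sub (by omega)]
    push_cast
    nlinarith
  · rw [Nat.cast_sub (by omega)]
    push_cast
    nlinarith

theorem dens (x y ε : ℝ) (hx : 0 < x) (hy : 0 < y) (hε : 0 < ε)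
    (hirr : ∀ i j : ℕ, 0 < i → (i : ℝ) * y ≠ j * x) :
    ∃ T0 : ℝ, ∀ T ≥ T0, ∃ a b : ℕ, 1 ≤ a ∧ 1 ≤ b ∧ T ≤ a * x + b * y ∧ a * x + b * y ≤ T + ε := by
  obtain ⟨n, hn⟩ := exists_nat_ge (max (x / ε) 1)
  have hn1 : (1 : ℝ) ≤ n := (le_max_right _ _).trans hn
  have hn2 : x / ε ≤ n := (le_max_left _ _).trans hn
  have hn0 : 0 < n := by exact_mod_cast (by linarith : (0 : ℝ) < n)
  obtain ⟨j, k, hk0, hkn, hjk⟩ := Real.exists_int_int_abs_mul_sub_le (y / x) hn0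
  have hj0 : 0 ≤ j := by
    by_contra hcon
    push Not at hcon
    have h1 : (j : ℝ) ≤ -1 := by exact_mod_cast (by omega : j ≤ -1)
    have h2 : (0 : ℝ) < k := by exact_mod_cast hk0
    have h3 : 0 < (k : ℝ) * (y / x) := by positivity
    have h4 := (abs_le.1 hjk).2
    have h5 : (1 : ℝ) / (n + 1) < 1 := by
      rw [div_lt_one (by positivity)]; linarith
    linarith
  obtain ⟨i', rfl⟩ := Int.eq_ofNat_of_zero_le hk0.le
  obtain ⟨j', rfl⟩ := Int.eq_ofNat_of_zero_le hj0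
  have hi0 : 0 < i' := by exact_mod_cast hk0
  have h1 : |(i' : ℝ) * y - j' * x| ≤ ε := by
    have h2 : (i' : ℝ) * y - j' * x = ((i' : ℝ) * (y / x) - j') * x := by
      field_simp
    rw [h2, abs_mul, abs_of_pos hx]
    have h3 : |(i' : ℝ) * (y / x) - j'| ≤ 1 / ((n : ℝ) + 1) := by exact_mod_cast hjk
    calc |(i' : ℝ) * (y / x) - j'| * x ≤ 1 / ((n : ℝ) + 1) * x :=
          mul_le_mul_of_nonneg_right h3 hx.le
      _ ≤ ε := by
          rw [one_div, inv_mul_le_iff₀ (by positivity)]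
          rw [div_le_iff₀ hε] at hn2
          nlinarith
  have h2 := hirr i' j' hi0
  rcases lt_or_gt_of_ne h2 with h3 | h3
  · have h4 : (j' : ℝ) * x - i' * y ≤ ε := by
      rw [abs_sub_comm] at h1
      exact (le_abs_self _).trans h1
    obtain ⟨T0, hT0⟩ := dens_aux y x ε hy hx j' i' (by linarith) h4
    refine ⟨T0, fun T hT => ?_⟩
    obtain ⟨a, b, ha, hb, h5, h6⟩ := hT0 T hT
    exact ⟨b, a, hb, ha, by linarith, by linarith⟩
  · exact dens_aux x y ε hx hy i' j' (by linarith) ((le_abs_self _).trans h1)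

/-- the sizes of the rings -/
theorem exists_size (r₁ r₂ E : ℕ) (h1 : r₁.Prime) (h2 : r₂.Prime) (h12 : r₁ ≠ r₂) (hE : 0 < E)
    (ε : ℝ) (hε : 0 < ε) :
    ∃ K0 : ℕ, ∀ k ≥ K0, ∃ a b : ℕ, 1 ≤ a ∧ 1 ≤ b ∧ k ≤ r₁ ^ (E * a) * r₂ ^ (E * b) ∧
      ((r₁ ^ (E * a) * r₂ ^ (E * b) : ℕ) : ℝ) ≤ (1 + ε) * k := by
  have hr1 : (1 : ℝ) < r₁ := by exact_mod_cast h1.one_lt
  have hr2 : (1 : ℝ) < r₂ := by exact_mod_cast h2.one_lt
  have hE' : (0 : ℝ) < E := by exact_mod_cast hE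
  have hx : 0 < E * Real.log r₁ := mul_pos hE' (Real.log_pos hr1)
  have hy : 0 < E * Real.log r₂ := mul_pos hE' (Real.log_pos hr2)
  have hirr : ∀ i j : ℕ, 0 < i → (i : ℝ) * (E * Real.log r₂) ≠ j * (E * Real.log r₁) := by
    intro i j hi heq
    have h3 : ((E * i : ℕ) : ℝ) * Real.log r₂ = ((E * j : ℕ) : ℝ) * Real.log r₁ := by
      push_cast; linarith
    rw [← Real.log_pow, ← Real.log_pow] at h3
    have h4 : (r₂ : ℝ) ^ (E * i) = (r₁ : ℝ) ^ (E * j) :=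
      Real.log_injOn_pos (Set.mem_Ioi.2 (by positivity)) (Set.mem_Ioi.2 (by positivity)) h3
    have h5 : r₂ ^ (E * i) = r₁ ^ (E * j) := by exact_mod_cast h4
    have h6 : r₂ ∣ r₁ ^ (E * j) := by
      rw [← h5]
      exact dvd_pow_self _ (by positivity)
    have h7 := h2.dvd_of_dvd_pow h6
    exact h12 ((Nat.prime_dvd_prime_iff_eq h2 h1).1 h7).symm
  obtain ⟨T0, hT0⟩ := dens _ _ (Real.log (1 + ε)) hx hy (Real.log_pos (by linarith)) hirr
  refine ⟨max 1 ⌈Real.exp T0⌉₊, fun k hk => ?_⟩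
  have hk1 : (1 : ℝ) ≤ k := by exact_mod_cast (le_max_left _ _).trans hk
  have hk0 : (0 : ℝ) < k := by linarith
  have hkT : T0 ≤ Real.log k := by
    rw [Real.le_log_iff_exp_le hk0]
    exact (Nat.le_ceil _).trans (by exact_mod_cast (le_max_right _ _).trans hk)
  obtain ⟨a, b, ha, hb, h3, h4⟩ := hT0 _ hkT
  have h5 : Real.log ((r₁ ^ (E * a) * r₂ ^ (E * b) : ℕ) : ℝ) =
      a * (E * Real.log r₁) + b * (E * Real.log r₂) := by
    push_cast
    rw [Real.log_mul (by positivity) (by positivity), Real.log_pow, Real.log_pow]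
    push_cast
    ring
  have hpos : (0 : ℝ) < ((r₁ ^ (E * a) * r₂ ^ (E * b) : ℕ) : ℝ) := by
    push_cast; positivity
  refine ⟨a, b, ha, hb, ?_, ?_⟩
  · have h6 : Real.log k ≤ Real.log ((r₁ ^ (E * a) * r₂ ^ (E * b) : ℕ) : ℝ) := by
      rw [h5]; exact h3
    exact_mod_cast (Real.log_le_log_iff hk0 hpos).1 h6
  · have h6 : Real.log ((r₁ ^ (E * a) * r₂ ^ (E * b) : ℕ) : ℝ) ≤ Real.log ((1 + ε) * k) := by
      rw [h5, Real.log_mul (by linarith) hk0.ne']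
      linarith
    exact (Real.log_le_log_iff hpos (by positivity)).1 h6

end Pool.Agent.Q241.PI
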