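import Pool.Agent.Q241.PI.Ring

set_option autoImplicit false

/-!
# The data of the construction for products of two finite fields
-/

namespace Pool.Agent.Q241.PI

open Finset

theorem field_data (F : Type) [Field F] [Fintype F] {p n : ℕ} (hp : 1 ≤ p)
    (h : p ∣ Fintype.card F - 1) (hn : n * p ≤ Fintype.card F - 1) :
    ∃ g z : Fˣ, orderOf z = p ∧ ∀ i j : ℕ, i < n → j < n → i ≠ j → ∀ e : ℤ,
      g ^ i ≠ g ^ j * z ^ e := by
  classical
  obtain ⟨s, hs⟩ := h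
  obtain ⟨g, hg⟩ := IsCyclic.exists_generator (α := Fˣ)
  have hord : orderOf g = p * s := by
    rw [orderOf_eq_card_of_forall_mem_zpowers hg, Nat.card_eq_fintype_card, Fintype.card_units, hs]
  have hF : 1 < Fintype.card F := Fintype.one_lt_card
  have hs0 : 0 < s := by
    rcases Nat.eq_zero_or_pos s with h0 | h0
    · rw [h0, mul_zero] at hs; omega
    · exact h0
  have hns : n ≤ s := by
    rw [hs, mul_comm p s] at hn
    exact Nat.le_of_mul_le_mul_right hn hp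
  refine ⟨g, g ^ s, ?_, ?_⟩
  · rw [orderOf_pow, hord, Nat.gcd_mul_left_left, Nat.mul_div_cancel _ hs0]
  · intro i j hi hj hij e heq
    have h1 : g ^ ((i : ℤ) - j - s * e) = 1 := by
      rw [zpow_sub, zpow_sub, zpow_natCast, zpow_natCast, zpow_mul, zpow_natCast, heq]
      group
    have h2 : ((p * s : ℕ) : ℤ) ∣ (i : ℤ) - j - s * e := by
      rw [← hord]
      exact orderOf_dvd_iff_zpow_eq_one.2 h1
    have h3 : (s : ℤ) ∣ (i : ℤ) - j := by
      have h4 : (s : ℤ) ∣ (i : ℤ) - j - s * e := by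
        refine dvd_trans ?_ h2
        push_cast
        exact dvd_mul_left _ _
      have h5 := dvd_add h4 (dvd_mul_right (s : ℤ) e)
      rwa [sub_add_cancel] at h5
    have h4 : (i : ℤ) - j = 0 := by
      apply Int.eq_zero_of_abs_lt_dvd h3
      rw [abs_lt]
      constructor <;> omega
    omega

theorem good_prod (F₁ F₂ : Type) [Field F₁] [Fintype F₁] [Field F₂] [Fintype F₂] {p n : ℕ}
    (hp : 1 ≤ p) (h1 : p ∣ Fintype.card F₁ - 1) (hn1 : n * p ≤ Fintype.card F₁ - 1)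
    (h2 : p ∣ Fintype.card F₂ - 1) (hn2 : n * p ≤ Fintype.card F₂ - 1) :
    ∃ (U : Subgroup (F₁ × F₂)ˣ) (a : Fin n → F₁ × F₂), Good U a p := by
  classical
  obtain ⟨g₁, z₁, hz₁, hg₁⟩ := field_data F₁ hp h1 hn1
  obtain ⟨g₂, z₂, hz₂, hg₂⟩ := field_data F₂ hp h2 hn2
  let z : (F₁ × F₂)ˣ := MulEquiv.prodUnits.symm (z₁, z₂)
  have hz : ∀ e : ℤ, z ^ e = MulEquiv.prodUnits.symm (z₁ ^ e, z₂ ^ e) := by
    intro e
    show (MulEquiv.prodUnits.symm (z₁, z₂)) ^ e = _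
    rw [← map_zpow]
    rfl
  have hz' : ∀ e : ℤ, ((z ^ e : (F₁ × F₂)ˣ) : F₁ × F₂) = (((z₁ ^ e : F₁ˣ) : F₁), ((z₂ ^ e : F₂ˣ) : F₂)) := by
    intro e
    rw [hz]
    rfl
  have hord : orderOf z = p := by
    show orderOf (MulEquiv.prodUnits.symm (z₁, z₂)) = p
    rw [MulEquiv.orderOf_eq, Prod.orderOf_mk, hz₁, hz₂, Nat.lcm_self]
  refine ⟨Subgroup.zpowers z, fun i => (((g₁ ^ (i : ℕ) : F₁ˣ) : F₁), ((g₂ ^ (i : ℕ) : F₂ˣ) : F₂)),
    ⟨?_, ?_, ?_, ?_⟩⟩
  · rw [Nat.card_zpowers, hord]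
  · rintro u hu hu1
    obtain ⟨e, rfl⟩ := Subgroup.mem_zpowers_iff.1 hu
    have h3 : ¬ (p : ℤ) ∣ e := by
      intro h4
      rw [← hord] at h4
      exact hu1 (orderOf_dvd_iff_zpow_eq_one.1 h4)
    rw [hz', Prod.isUnit_iff]
    constructor
    · rw [isUnit_iff_ne_zero]
      intro h4
      have h5 : ((z₁ ^ e : F₁ˣ) : F₁) = 1 := by
        have : ((z₁ ^ e : F₁ˣ) : F₁) - 1 = 0 := h4
        exact sub_eq_zero.1 this
      have h6 : z₁ ^ e = 1 := Units.ext h5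
      rw [← orderOf_dvd_iff_zpow_eq_one, hz₁] at h6
      exact h3 h6
    · rw [isUnit_iff_ne_zero]
      intro h4
      have h5 : ((z₂ ^ e : F₂ˣ) : F₂) = 1 := by
        have : ((z₂ ^ e : F₂ˣ) : F₂) - 1 = 0 := h4
        exact sub_eq_zero.1 this
      have h6 : z₂ ^ e = 1 := Units.ext h5
      rw [← orderOf_dvd_iff_zpow_eq_one, hz₂] at h6
      exact h3 h6
  · intro i
    rw [Prod.isUnit_iff]
    exact ⟨(g₁ ^ (i : ℕ)).isUnit, (g₂ ^ (i : ℕ)).isUnit⟩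
  · rintro i j hij u hu
    obtain ⟨e, rfl⟩ := Subgroup.mem_zpowers_iff.1 hu
    have hij' : (i : ℕ) ≠ j := fun h => hij (Fin.ext h)
    rw [hz', Prod.isUnit_iff]
    constructor
    · rw [isUnit_iff_ne_zero]
      intro h4
      have h5 : ((g₁ ^ (i : ℕ) : F₁ˣ) : F₁) - ((g₁ ^ (j : ℕ) : F₁ˣ) : F₁) * ((z₁ ^ e : F₁ˣ) : F₁) = 0 := h4
      rw [sub_eq_zero, ← Units.val_mul] at h5
      exact hg₁ i j i.2 j.2 hij' e (Units.ext h5)
    · rw [isUnit_iff_ne_zero]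
      intro h4
      have h5 : ((g₂ ^ (i : ℕ) : F₂ˣ) : F₂) - ((g₂ ^ (j : ℕ) : F₂ˣ) : F₂) * ((z₂ ^ e : F₂ˣ) : F₂) = 0 := h4
      rw [sub_eq_zero, ← Units.val_mul] at h5
      exact hg₂ i j i.2 j.2 hij' e (Units.ext h5)

/-- the same for one field -/
theorem good_field (F : Type) [Field F] [Fintype F] {p n : ℕ}
    (hp : 1 ≤ p) (h : p ∣ Fintype.card F - 1) (hn : n * p ≤ Fintype.card F - 1) :
    ∃ (U : Subgroup Fˣ) (a : Fin n → F), Good U a p := by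
  classical
  obtain ⟨g, z, hz, hg⟩ := field_data F hp h hn
  refine ⟨Subgroup.zpowers z, fun i => ((g ^ (i : ℕ) : Fˣ) : F), ⟨?_, ?_, ?_, ?_⟩⟩
  · rw [Nat.card_zpowers, hz]
  · rintro u hu hu1
    rw [isUnit_iff_ne_zero]
    intro h4
    exact hu1 (Units.ext (by rw [Units.val_one]; exact sub_eq_zero.1 h4))
  · intro i
    exact Units.isUnit _
  · rintro i j hij u hu
    obtain ⟨e, rfl⟩ := Subgroup.mem_zpowers_iff.1 hu
    have hij' : (i : ℕ) ≠ j := fun h => hij (Fin.ext h)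
    rw [isUnit_iff_ne_zero]
    intro h4
    rw [sub_eq_zero, ← Units.val_mul] at h4
    exact hg i j i.2 j.2 hij' e (Units.ext h4)

end Pool.Agent.Q241.PI
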