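import Mathlib

set_option autoImplicit false

/-!
# The `p`-intersection number of the graphs `K(n × k)`: lower bound
-/

namespace Pool.Agent.Q241.PI

open Finset

/-- the graph `K(n × k)`: the vertex `(α, l)` is `v^l_α` -/
def KG (n k : ℕ) : SimpleGraph (Fin n × Fin k) where
  Adj x y := x.2 ≠ y.2 ∧ x.1 ≠ y.1
  symm := ⟨fun _ _ h => ⟨h.1.symm, h.2.symm⟩⟩
  loopless := ⟨fun _ h => h.1 rfl⟩

/-- `G` has a `p`-intersection representation on a set with `t` elements -/
def HasRep {V : Type} (p : ℕ) (G : SimpleGraph V) (t : ℕ) : Prop :=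
  ∃ S : V → Finset (Fin t), ∀ u v, u ≠ v → (G.Adj u v ↔ p ≤ (S u ∩ S v).card)

/-- the `p`-intersection number -/
noncomputable def theta {V : Type} (p : ℕ) (G : SimpleGraph V) : ℕ := sInf {t | HasRep p G t}

theorem lower {n k p t : ℕ} (hp : 1 ≤ p) (hn : 2 ≤ n) (h : HasRep p (KG n k) t) :
    (k : ℝ) * (k - 1) ≤ p * t := by
  classical
  obtain ⟨S, hS⟩ := h
  rcases Nat.eq_zero_or_pos k with hk | hk
  · subst hk
    simp
    positivity
  have hk1 : (1 : ℝ) ≤ k := by exact_mod_cast hk
  have hp1 : (1 : ℝ) ≤ p := by exact_mod_cast hp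
  have hn2 : (2 : ℝ) ≤ n := by exact_mod_cast hn
  set K : ℝ := (k : ℝ) * (k - 1) with hK
  have hK0 : 0 ≤ K := mul_nonneg (by linarith) (by linarith)
  let x : Fin t → Fin n → ℝ := fun i α => ∑ l : Fin k, if i ∈ S (α, l) then (1 : ℝ) else 0
  have hcross : ∀ α β, ∑ i, x i α * x i β =
      ∑ l : Fin k, ∑ m : Fin k, ((S (α, l) ∩ S (β, m)).card : ℝ) := by
    intro α β
    simp only [x, Finset.sum_mul_sum]
    rw [Finset.sum_comm]
    refine Finset.sum_congr rfl fun l _ => ?_
    rw [Finset.sum_comm]
    refine Finset.sum_congr rfl fun m _ => ?_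
    rw [Finset.card_eq_sum_ones, Nat.cast_sum, ← Finset.sum_filter_add_sum_filter_not univ
      (fun i => i ∈ S (α, l) ∩ S (β, m)) (fun i => (if i ∈ S (α, l) then (1 : ℝ) else 0) *
        if i ∈ S (β, m) then (1 : ℝ) else 0)]
    have h1 : ∑ i ∈ univ.filter (fun i => ¬ i ∈ S (α, l) ∩ S (β, m)),
        (if i ∈ S (α, l) then (1 : ℝ) else 0) * (if i ∈ S (β, m) then (1 : ℝ) else 0) = 0 := by
      apply Finset.sum_eq_zero
      intro i hi
      rw [mem_filter, mem_inter, not_and_or] at hi
      rcases hi.2 with h | h <;> simp [h]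
    rw [h1, add_zero]
    have h2 : univ.filter (fun i => i ∈ S (α, l) ∩ S (β, m)) = S (α, l) ∩ S (β, m) := by
      ext i; simp
    rw [h2]
    refine Finset.sum_congr rfl fun i hi => ?_
    rw [mem_inter] at hi
    simp [hi.1, hi.2]
  have hx0 : ∀ i α, 0 ≤ x i α := fun i α => Finset.sum_nonneg fun l _ => by split_ifs <;> norm_num
  -- sums of a function which depends on `l = m` only
  have hsum : ∀ A B : ℝ, ∑ l : Fin k, ∑ m : Fin k, (if l = m then A else B) =
      k * A + K * B := by
    intro A B
    have h1 : ∀ l : Fin k, ∑ m : Fin k, (if l = m then A else B) = A + (k - 1) * B := by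
      intro l
      have h2 : ∀ m : Fin k, (if l = m then A else B) = B + (if l = m then A - B else 0) := by
        intro m; split_ifs <;> ring
      simp only [h2, Finset.sum_add_distrib, Finset.sum_ite_eq, Finset.mem_univ, if_true,
        Finset.sum_const, Finset.card_univ, Fintype.card_fin, nsmul_eq_mul]
      ring
    simp only [h1, Finset.sum_const, Finset.card_univ, Fintype.card_fin, nsmul_eq_mul]
    rw [hK]; ring
  have hA : ∀ α β, α ≠ β → p * K ≤ ∑ i, x i α * x i β := by
    intro α β hab
    rw [hcross]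
    have h1 := hsum 0 p
    rw [mul_zero, zero_add, mul_comm] at h1
    rw [← h1]
    refine Finset.sum_le_sum fun l _ => Finset.sum_le_sum fun m _ => ?_
    split_ifs with hlm
    · exact Nat.cast_nonneg _
    · have h2 := (hS (α, l) (β, m) (by simp [hab])).1 ⟨hlm, hab⟩
      exact_mod_cast h2
  have hB : ∀ α, ∑ i, x i α * x i α ≤ ∑ i, x i α + (p - 1) * K := by
    intro α
    rw [hcross]
    have h1 : ∑ i, x i α = ∑ l : Fin k, ∑ m : Fin k, (if l = m then ((S (α, l)).card : ℝ) else 0) := by
      simp only [x]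
      rw [Finset.sum_comm]
      refine Finset.sum_congr rfl fun l _ => ?_
      rw [Finset.sum_ite_eq]
      simp only [Finset.mem_univ, if_true, Finset.sum_ite_mem, Finset.univ_inter, Finset.sum_const,
        nsmul_eq_mul, mul_one]
    have h2 := hsum 0 (p - 1)
    rw [mul_zero, zero_add, mul_comm K] at h2
    rw [← h2, h1, ← Finset.sum_add_distrib]
    refine Finset.sum_le_sum fun l _ => ?_
    rw [← Finset.sum_add_distrib]
    refine Finset.sum_le_sum fun m _ => ?_
    split_ifs with hlm
    · subst hlm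
      rw [inter_self, add_zero]
    · have h3 : ¬ p ≤ (S (α, l) ∩ S (α, m)).card := by
        intro h4
        exact ((hS (α, l) (α, m) (by simp [hlm])).2 h4).2 rfl
      have h5 : (S (α, l) ∩ S (α, m)).card + 1 ≤ p := by omega
      have h6 : ((S (α, l) ∩ S (α, m)).card : ℝ) + 1 ≤ p := by exact_mod_cast h5
      linarith
  -- total sums
  set S1 : ℝ := ∑ α, ∑ i, x i α with hS1
  set S2 : ℝ := ∑ α, ∑ i, x i α * x i α with hS2
  have hS12 : S2 ≤ S1 + n * ((p - 1) * K) := by
    have := Finset.sum_le_sum fun α (_ : α ∈ (univ : Finset (Fin n))) => hB α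
    rw [Finset.sum_add_distrib, Finset.sum_const, Finset.card_univ, Fintype.card_fin,
      nsmul_eq_mul] at this
    exact this
  have hS2low : n * p * K ≤ S2 := by
    -- sum over ordered pairs
    have h1 : ∑ α : Fin n, ∑ β : Fin n, (if α = β then 0 else p * K) ≤
        ∑ α : Fin n, ∑ β : Fin n, (if α = β then 0 else
          ((∑ i, x i α * x i α) + ∑ i, x i β * x i β) / 2) := by
      refine Finset.sum_le_sum fun α _ => Finset.sum_le_sum fun β _ => ?_
      split_ifs with hab
      · exact le_rfl
      · refine (hA α β hab).trans ?_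
        rw [← Finset.sum_add_distrib, Finset.sum_div]
        refine Finset.sum_le_sum fun i _ => ?_
        nlinarith [sq_nonneg (x i α - x i β)]
    have h2 : ∀ (f : Fin n → ℝ), ∑ α : Fin n, ∑ β : Fin n, (if α = β then 0 else (f α + f β) / 2) =
        (n - 1) * ∑ α, f α := by
      intro f
      have h3 : ∀ α β : Fin n, (if α = β then 0 else (f α + f β) / 2) =
          (f α + f β) / 2 - (if α = β then f α else 0) := by
        intro α β
        split_ifs with h
        · subst h; ring
        · ring
      simp only [h3, Finset.sum_sub_distrib, Finset.sum_ite_eq, Finset.mem_univ, if_true,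
        ← Finset.sum_div, Finset.sum_add_distrib, Finset.sum_const, Finset.card_univ,
        Fintype.card_fin, nsmul_eq_mul, ← Finset.mul_sum]
      ring
    have h4 := h2 (fun _ => p * K)
    have h5 : ∀ α β : Fin n, (if α = β then (0 : ℝ) else (p * K + p * K) / 2) =
        (if α = β then 0 else p * K) := by
      intro α β; split_ifs <;> ring
    simp only [h5, Finset.sum_const, Finset.card_univ, Fintype.card_fin, nsmul_eq_mul] at h4
    rw [h4, h2 (fun α => ∑ i, x i α * x i α)] at h1
    have h6 : 0 < (n : ℝ) - 1 := by linarith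
    have := le_of_mul_le_mul_left h1 h6
    rw [hS2]
    linarith
  have hCS : S1 ^ 2 ≤ (n * t) * S2 := by
    have h1 := Finset.sum_mul_sq_le_sq_mul_sq (univ : Finset (Fin n × Fin t)) (fun _ => (1 : ℝ))
      (fun q => x q.2 q.1)
    simp only [one_mul, one_pow, Finset.sum_const, Finset.card_univ, Fintype.card_prod,
      Fintype.card_fin, nsmul_eq_mul, mul_one] at h1
    rw [Fintype.sum_prod_type, Fintype.sum_prod_type] at h1
    have h2 : ∑ α : Fin n, ∑ i : Fin t, x i α ^ 2 = S2 := by
      rw [hS2]
      simp only [sq]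
    simp only [h2] at h1
    push_cast at h1
    exact h1
  by_cases hK1 : K = 0
  · rw [hK1]; positivity
  have hKpos : 0 < K := lt_of_le_of_ne hK0 (Ne.symm hK1)
  have hnK : 0 < (n : ℝ) * K := by positivity
  obtain ⟨u, hu⟩ : ∃ u, S2 = n * p * K + u := ⟨S2 - n * p * K, by ring⟩
  have hu0 : 0 ≤ u := by linarith
  have hS1low : n * K + u ≤ S1 := by nlinarith
  have h7 : (n * K + u) ^ 2 ≤ (n * t) * (n * p * K + u) := by
    rw [← hu]
    refine le_trans ?_ hCS
    exact pow_le_pow_left₀ (by positivity) hS1low 2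
  by_contra hcon
  push Not at hcon
  have h8 : p * ((n * t) * (n * p * K + u)) < n * K * (n * p * K + u) := by
    have : (0 : ℝ) < n * p * K + u := by positivity
    have h9 : (p * t : ℝ) * (n * (n * p * K + u)) < K * (n * (n * p * K + u)) :=
      mul_lt_mul_of_pos_right hcon (by positivity)
    nlinarith
  have h10 : p * (n * K + u) ^ 2 ≤ p * ((n * t) * (n * p * K + u)) :=
    mul_le_mul_of_nonneg_left h7 (by linarith)
  nlinarith [mul_nonneg hnK.le hu0, mul_nonneg (mul_nonneg hnK.le hu0) (by linarith : (0:ℝ) ≤ p - 1),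
    mul_nonneg (by linarith : (0:ℝ) ≤ p) (sq_nonneg u)]

end Pool.Agent.Q241.PI
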