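import Pool.Agent.Q241.PI.Lower

set_option autoImplicit false
set_option linter.unusedSectionVars false

/-!
# The `p`-intersection number of the graphs `K(n × k)`: representations from finite rings
-/

namespace Pool.Agent.Q241.PI

open Finset

theorem hasRep_of_fintype {V I : Type} [Fintype I] [DecidableEq I] {p : ℕ} {G : SimpleGraph V}
    (S : V → Finset I) (hS : ∀ u v, u ≠ v → (G.Adj u v ↔ p ≤ (S u ∩ S v).card)) :
    HasRep p G (Fintype.card I) := by
  classical
  refine ⟨fun v => (S v).map (Fintype.equivFin I).toEmbedding, fun u v huv => ?_⟩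
  rw [hS u v huv, ← Finset.map_inter, Finset.card_map]

section

variable {R : Type} [CommRing R] [Fintype R] (U : Subgroup Rˣ) {n : ℕ} (a : Fin n → R)

/-- the data of the construction -/
structure Good (p : ℕ) : Prop where
  card : Nat.card U = p
  sub : ∀ u ∈ U, u ≠ 1 → IsUnit ((u : R) - 1)
  unit : ∀ i, IsUnit (a i)
  diff : ∀ i j, i ≠ j → ∀ u ∈ U, IsUnit (a i - a j * (u : R))

/-- the class of an element of the ring -/
def cl (b : R) : MulAction.orbitRel.Quotient U R := Quotient.mk _ b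

theorem cl_eq {b c : R} : cl U b = cl U c ↔ ∃ u ∈ U, (u : R) * c = b := by
  unfold cl
  rw [Quotient.eq]
  show (MulAction.orbitRel U R) b c ↔ _
  rw [MulAction.orbitRel_apply, MulAction.mem_orbit_iff]
  constructor
  · rintro ⟨u, hu⟩
    exact ⟨u, u.2, hu⟩
  · rintro ⟨u, hu, h⟩
    exact ⟨⟨u, hu⟩, h⟩

theorem cl_ne_zero {b : R} : cl U b ≠ cl U 0 ↔ b ≠ 0 := by
  rw [not_iff_not, cl_eq]
  constructor
  · rintro ⟨u, _, h⟩
    rw [← h, mul_zero]
  · intro h
    exact ⟨1, U.one_mem, by simp [h]⟩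

/-- the index set -/
abbrev Ix : Type := R × {w : MulAction.orbitRel.Quotient U R // w ≠ cl U 0}

variable {U a}

open Classical in
theorem card_Ix {p : ℕ} (h : Good U a p) :
    p * Fintype.card (Ix U) = Fintype.card R * (Fintype.card R - 1) := by
  have h1 : Fintype.card ({w : MulAction.orbitRel.Quotient U R // w ≠ cl U 0} × U) =
      Fintype.card {b : R // b ≠ 0} := by
    apply Fintype.card_of_bijective (f := fun q => (⟨(q.2 : Rˣ) * q.1.1.out, by
      intro h0
      have h2 : q.1.1.out = (0 : R) := by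
        rwa [Units.mul_right_eq_zero] at h0
      have hcl : cl U q.1.1.out = q.1.1 := Quotient.out_eq _
      rw [h2] at hcl
      exact q.1.2 hcl.symm⟩ : {b : R // b ≠ 0}))
    constructor
    · rintro ⟨⟨w, hw⟩, u⟩ ⟨⟨w', hw'⟩, u'⟩ heq
      simp only [Subtype.mk.injEq] at heq
      have h2 : w = w' := by
        have h3 : cl U (((u : Rˣ) : R) * w.out) = w := by
          conv_rhs => rw [← Quotient.out_eq w]
          exact (cl_eq U).2 ⟨u, u.2, rfl⟩
        have h4 : cl U (((u' : Rˣ) : R) * w'.out) = w' := by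
          conv_rhs => rw [← Quotient.out_eq w']
          exact (cl_eq U).2 ⟨u', u'.2, rfl⟩
        rw [← h3, ← h4, heq]
      subst h2
      have h5 : u = u' := by
        by_contra hne
        have h6 : (u'⁻¹ * u : U) ≠ 1 := fun h7 => hne (inv_mul_eq_one.1 h7).symm
        have h7 := h.sub ((u'⁻¹ * u : U) : Rˣ) (u'⁻¹ * u).2 (fun h8 => h6 (Subtype.ext h8))
        have h8 : (((u'⁻¹ * u : U) : Rˣ) : R) * w.out = w.out := by
          have h9 : (((u'⁻¹ * u : U) : Rˣ) : R) = (((u' : Rˣ)⁻¹ : Rˣ) : R) * ((u : Rˣ) : R) := by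
            simp
          rw [h9, mul_assoc, heq, ← mul_assoc, Units.inv_mul, one_mul]
        have h10 : ((((u'⁻¹ * u : U) : Rˣ) : R) - 1) * w.out = 0 := by
          rw [sub_mul, h8, one_mul, sub_self]
        have h11 : (w.out : R) = 0 := by
          rwa [h7.mul_right_eq_zero] at h10
        have hcl : cl U w.out = w := Quotient.out_eq _
        rw [h11] at hcl
        exact hw hcl.symm
      rw [h5]
    · rintro ⟨b, hb⟩
      obtain ⟨u, hu, hub⟩ := (cl_eq U (b := b) (c := (cl U b).out)).1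
        (Quotient.out_eq (cl U b)).symm
      exact ⟨(⟨cl U b, (cl_ne_zero U).2 hb⟩, ⟨u, hu⟩), Subtype.ext hub⟩
  have h2 : Fintype.card {b : R // b ≠ 0} = Fintype.card R - 1 := by
    rw [Fintype.card_subtype_compl, Fintype.card_subtype_eq]
  rw [Fintype.card_prod, h2, ← Nat.card_eq_fintype_card (α := U), h.card] at h1
  rw [Fintype.card_prod, ← h1]
  ring

open Classical in
/-- the representation -/
noncomputable def rep (a : Fin n → R) (v : Fin n × R) : Finset (Ix U) :=
  univ.filter fun q => ∃ b : R, cl U b = q.2.1 ∧ q.1 + a v.1 * b = v.2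

open Classical in
theorem rep_adj {p : ℕ} (h : Good U a p) {v v' : Fin n × R} (h1 : v.1 ≠ v'.1)
    (h2 : v.2 ≠ v'.2) : p ≤ (rep (U := U) a v ∩ rep a v').card := by
  obtain ⟨i, l⟩ := v
  obtain ⟨j, m⟩ := v'
  simp only at h1 h2
  have hlm : l - m ≠ 0 := sub_ne_zero.2 h2
  choose v hv using fun w : U => h.diff i j h1 w w.2
  have hb : ∀ w : U, (l - m) * ((v w)⁻¹ : Rˣ) ≠ 0 := by
    intro w h0
    exact hlm ((Units.mul_left_eq_zero _).1 h0)
  let f : U → Ix U := fun w => (l - a i * ((l - m) * ((v w)⁻¹ : Rˣ)),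
    ⟨cl U ((l - m) * ((v w)⁻¹ : Rˣ)), (cl_ne_zero U).2 (hb w)⟩)
  have hf : ∀ w, f w ∈ rep (U := U) a (i, l) ∩ rep a (j, m) := by
    intro w
    rw [mem_inter]
    constructor
    · simp only [rep, mem_filter, mem_univ, true_and]
      exact ⟨_, rfl, by simp only [f]; ring⟩
    · simp only [rep, mem_filter, mem_univ, true_and]
      refine ⟨((w : Rˣ) : R) * ((l - m) * ((v w)⁻¹ : Rˣ)), (cl_eq U).2 ⟨w, w.2, rfl⟩, ?_⟩
      simp only [f]
      have h3 : (v w : R) * ((v w)⁻¹ : Rˣ) = 1 := Units.mul_inv _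
      rw [hv w] at h3
      linear_combination (-(l - m)) * h3
  have hinj : Function.Injective f := by
    intro w w' heq
    have h3 : l - a i * ((l - m) * ((v w)⁻¹ : Rˣ)) = l - a i * ((l - m) * ((v w')⁻¹ : Rˣ)) :=
      congrArg Prod.fst heq
    have h4 : a i * ((l - m) * ((v w)⁻¹ : Rˣ) - (l - m) * ((v w')⁻¹ : Rˣ)) = 0 := by
      linear_combination -h3
    rw [(h.unit i).mul_right_eq_zero, sub_eq_zero] at h4
    have h5 : (l - m) * (v w' : R) = (l - m) * (v w : R) := by
      have e1 : (v w : R) * ((v w)⁻¹ : Rˣ) = 1 := Units.mul_inv _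
      have e2 : (v w' : R) * ((v w')⁻¹ : Rˣ) = 1 := Units.mul_inv _
      linear_combination (v w : R) * (v w' : R) * h4 - (l - m) * (v w' : R) * e1 +
        (l - m) * (v w : R) * e2
    by_contra hne
    have h6 : (w'⁻¹ * w : U) ≠ 1 := fun h7 => hne (inv_mul_eq_one.1 h7).symm
    have h7 := h.sub ((w'⁻¹ * w : U) : Rˣ) (w'⁻¹ * w).2 (fun h8 => h6 (Subtype.ext h8))
    have h8 : (((w'⁻¹ * w : U) : Rˣ) : R) = (((w' : Rˣ)⁻¹ : Rˣ) : R) * ((w : Rˣ) : R) := by
      simp
    rw [h8] at h7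
    rw [hv w, hv w'] at h5
    have h9 : a j * (((w' : Rˣ) : R) * (((((w' : Rˣ)⁻¹ : Rˣ) : R) * ((w : Rˣ) : R) - 1) * (l - m))) = 0 := by
      have e3 : ((w' : Rˣ) : R) * (((w' : Rˣ)⁻¹ : Rˣ) : R) = 1 := Units.mul_inv _
      linear_combination h5 + a j * (l - m) * ((w : Rˣ) : R) * e3
    rw [(h.unit j).mul_right_eq_zero, Units.mul_right_eq_zero, h7.mul_right_eq_zero] at h9
    exact hlm h9
  calc p = Fintype.card U := by rw [← h.card, Nat.card_eq_fintype_card]
    _ = (univ.image f).card := by rw [Finset.card_image_of_injective _ hinj, Finset.card_univ]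
    _ ≤ _ := Finset.card_le_card fun q hq => by
      obtain ⟨w, _, rfl⟩ := mem_image.1 hq
      exact hf w

open Classical in
theorem rep_part {p : ℕ} (hp : 1 ≤ p) (h : Good U a p) {v v' : Fin n × R} (h1 : v.1 ≠ v'.1)
    (h2 : v.2 = v'.2) : ¬ p ≤ (rep (U := U) a v ∩ rep a v').card := by
  obtain ⟨i, l⟩ := v
  obtain ⟨j, m⟩ := v'
  simp only at h1 h2
  subst h2
  have h3 : rep (U := U) a (i, l) ∩ rep a (j, l) = ∅ := by
    rw [Finset.eq_empty_iff_forall_notMem]
    intro q hq
    simp only [rep, mem_inter, mem_filter, mem_univ, true_and] at hq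
    obtain ⟨⟨b, hb1, hb2⟩, c, hc1, hc2⟩ := hq
    obtain ⟨u, hu, huc⟩ := (cl_eq U).1 (hc1.trans hb1.symm)
    have h4 : (a i - a j * (u : R)) * b = 0 := by
      rw [← huc] at hc2
      linear_combination hb2 - hc2
    rw [(h.diff i j h1 u hu).mul_right_eq_zero] at h4
    rw [h4] at hb1
    exact q.2.2 hb1.symm
  rw [h3, card_empty]
  omega

open Classical in
theorem rep_class {p : ℕ} (h : Good U a p) {v v' : Fin n × R} (h1 : v.1 = v'.1)
    (h2 : v.2 ≠ v'.2) : ¬ p ≤ (rep (U := U) a v ∩ rep a v').card := by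
  obtain ⟨i, l⟩ := v
  obtain ⟨j, m⟩ := v'
  simp only at h1 h2
  subst h1
  have hex : ∀ q ∈ rep (U := U) a (i, l) ∩ rep a (i, m), ∃ w : U, w ≠ 1 ∧ ∃ b : R,
      cl U b = q.2.1 ∧ q.1 + a i * b = l ∧ a i * (1 - ((w : Rˣ) : R)) * b = l - m := by
    intro q hq
    simp only [rep, mem_inter, mem_filter, mem_univ, true_and] at hq
    obtain ⟨⟨b, hb1, hb2⟩, c, hc1, hc2⟩ := hq
    obtain ⟨u, hu, huc⟩ := (cl_eq U).1 (hc1.trans hb1.symm)
    refine ⟨⟨u, hu⟩, ?_, b, hb1, hb2, ?_⟩
    · intro h3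
      have h4 : u = 1 := congrArg Subtype.val h3
      rw [h4, Units.val_one, one_mul] at huc
      rw [← huc] at hc2
      exact h2 (hb2.symm.trans hc2)
    · rw [← huc] at hc2
      simp only
      linear_combination hb2 - hc2
  choose! w hw1 hw2 using hex
  have hmaps : ∀ q ∈ rep (U := U) a (i, l) ∩ rep a (i, m), w q ∈ (univ : Finset U).erase 1 :=
    fun q hq => mem_erase.2 ⟨hw1 q hq, mem_univ _⟩
  have hinj : Set.InjOn w ((rep (U := U) a (i, l) ∩ rep a (i, m) : Finset (Ix U)) : Set (Ix U)) := by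
    intro q hq q' hq' heq
    obtain ⟨b, hb1, hb2, hb3⟩ := hw2 q hq
    obtain ⟨c, hc1, hc2, hc3⟩ := hw2 q' hq'
    rw [heq] at hb3
    have h3 := h.sub (w q') (w q').2 (fun h4 => hw1 q' hq' (Subtype.ext h4))
    have h4 : a i * ((((w q' : U) : Rˣ) : R) - 1) * (b - c) = 0 := by
      linear_combination hc3 - hb3
    rw [((h.unit i).mul h3).mul_right_eq_zero, sub_eq_zero] at h4
    subst h4
    refine Prod.ext ?_ (Subtype.ext (hb1.symm.trans hc1))
    linear_combination hb2 - hc2
  have h3 := Finset.card_le_card_of_injOn w hmaps hinj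
  rw [Finset.card_erase_of_mem (mem_univ _), Finset.card_univ, ← Nat.card_eq_fintype_card,
    h.card] at h3
  have h4 : 0 < p := by rw [← h.card]; exact Nat.card_pos
  omega

/-- the representation of the ring gives a representation of `K(n × k)` -/
theorem ring_rep {p k : ℕ} (h : Good U a p) (hk : k ≤ Fintype.card R) :
    ∃ t, p * t = Fintype.card R * (Fintype.card R - 1) ∧ HasRep p (KG n k) t := by
  classical
  have hp : 1 ≤ p := by rw [← h.card]; exact Nat.card_pos
  refine ⟨Fintype.card (Ix U), card_Ix h, ?_⟩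
  let e : Fin k → R := fun i => (Fintype.equivFin R).symm (Fin.castLE hk i)
  have he : Function.Injective e := (Fintype.equivFin R).symm.injective.comp (Fin.castLE_injective hk)
  refine hasRep_of_fintype (fun v => rep (U := U) a (v.1, e v.2)) fun u v huv => ?_
  constructor
  · intro hadj
    exact rep_adj h hadj.2 (fun h1 => hadj.1 (he h1))
  · intro hle
    by_contra hadj
    have hadj' : ¬ (u.2 ≠ v.2 ∧ u.1 ≠ v.1) := hadj
    by_cases h1 : u.1 = v.1
    · have h2 : u.2 ≠ v.2 := fun h2 => huv (Prod.ext h1 h2)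
      exact rep_class h (v := (u.1, e u.2)) (v' := (v.1, e v.2)) h1 (fun h3 => h2 (he h3)) hle
    · have h2 : u.2 = v.2 := by
        by_contra h2
        exact hadj' ⟨h2, h1⟩
      exact rep_part hp h (v := (u.1, e u.2)) (v' := (v.1, e v.2)) h1 (by rw [h2]) hle

end

end Pool.Agent.Q241.PI
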